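import Pool.Agent.Lib.MP_bea9c1_prK.Asm

/-!
# MP_bea9c1_pr: it is enough to have non-concentration once in every window of length `K σ_m`

The expectation of `χ(G_{n,1/2})` grows by `d_n ∈ [0,1]` from `n` to `n + 1` and the standard
deviation changes by at most `√(d_n (1 - d_n))`; from `n` to `n + r` it changes by at most
`√(E χ(G_{r,1/2})²)`.  The assertion of Q1 holds if and only if near every large `m`, at distance at
most `K σ_m` (for any fixed `K`), there is some `n` for which the chromatic number is not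
concentrated on intervals of length `C σ_n`.
-/

set_option autoImplicit false

namespace Pool.Agent.Results.MP_bea9c1_pr.LongWindows

open ChiVar

theorem result :
    (∀ n : ℕ, 0 ≤ E (n + 1) (Y (n + 1)) - E n (Y n) ∧ E (n + 1) (Y (n + 1)) - E n (Y n) ≤ 1 ∧
      |sd (n + 1) - sd n| ≤
        √((E (n + 1) (Y (n + 1)) - E n (Y n)) * (1 - (E (n + 1) (Y (n + 1)) - E n (Y n))))) ∧
    (∀ n r : ℕ, |sd (n + r) - sd n| ≤ √(E r fun G => Y r G ^ 2)) ∧
    ∀ K : ℝ, 0 < K →
      (Q1 ↔ ∀ C : ℝ, 0 < C → ∃ δ : ℝ, 0 < δ ∧ ∃ n₀ : ℕ, ∀ m, n₀ ≤ m → ∃ n : ℕ,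
        |(n : ℝ) - m| ≤ K * sd m ∧ ∀ a : ℝ, P n a (C * sd n) ≤ 1 - δ) :=
  ⟨fun n => ⟨(inc_bounds n).1, (inc_bounds n).2, sd_diff n⟩, sd_add_le, longwin⟩

end Pool.Agent.Results.MP_bea9c1_pr.LongWindows
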