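import Pool.Agent.Lib.MP_bea9c1_pr.Main

/-!
# MP_bea9c1_pr: what the assertion of Q1 says about the chromatic number of `G_{n,1/2}`

The assertion of Q1 is equivalent to uniform non-concentration on intervals of length `C σ_n` (for
every `C`), and to the existence of deviations by more than `C σ_n` with a probability bounded away
from zero (for every `C`).  It implies that `σ_n` is bounded away from zero and that the chromatic
number is not concentrated on boundedly many values along any subsequence.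
-/

set_option autoImplicit false

namespace Pool.Agent.Results.MP_bea9c1_pr.NonConcentration

open ChiVar

theorem result :
    [Q1,
      ∀ C : ℝ, 0 < C → ∃ δ : ℝ, 0 < δ ∧ ∃ n₀ : ℕ, ∀ n, n₀ ≤ n → ∀ a : ℝ,
        P n a (C * sd n) ≤ 1 - δ,
      ∀ C : ℝ, 0 < C → ∃ δ : ℝ, 0 < δ ∧ ∃ n₀ : ℕ, ∀ n, n₀ ≤ n →
        δ ≤ Dev n (C * sd n)].TFAE ∧
    (Q1 → (∃ c : ℝ, 0 < c ∧ ∃ n₀ : ℕ, ∀ n, n₀ ≤ n → c ≤ sd n) ∧
      ∀ K : ℝ, 0 < K → ∃ δ : ℝ, 0 < δ ∧ ∃ n₀ : ℕ, ∀ n, n₀ ≤ n → ∀ a : ℝ, P n a K ≤ 1 - δ) :=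
  ⟨tfae, fun h => ⟨sd_lower (q1_iff.1 h), bounded (q1_iff.1 h)⟩⟩

end Pool.Agent.Results.MP_bea9c1_pr.NonConcentration
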